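import Pool.Agent.H51.CI.Final2

/-!
# Closed images of stratifiable spaces with small closures

`M₂`-spaces (regular `T₁` spaces with a closed quasi-base that is a countable union of
closure-preserving families) are the stratifiable spaces; every `M₁`-space is an `M₂`-space.

Call a set *small* if it is the union of countably many closed discrete sets and a set with fewer
than `𝔡` points, where `𝔡` is the dominating number. We show that if `X` is an `M₂`-space in which
every point of the closure of a set `A` is in the closure of some `E ⊆ A` whose closure is small,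
then every closed continuous image of every subspace of `X` is an `M₁`-space. The hypothesis holds
if `X` has fewer than `𝔡` points; if `X` is countably tight and has an `ω^ω`-base at every point;
and for the function spaces `C_k(P)`, `P` Polish.
-/

set_option autoImplicit false
open Topology

namespace Pool.Agent.Results.MP_e4a2d8_gt.ClosedImages

universe u v

/-- `Y` is an `M₁`-space: it is regular and `T₁` (`T₃`), and it has a base of open sets that is a
countable union of closure-preserving families. -/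
def IsM1Space (Y : Type u) [TopologicalSpace Y] : Prop :=
  T3Space Y ∧
    ∃ B : ℕ → Set (Set Y), TopologicalSpace.IsTopologicalBasis (⋃ n, B n) ∧
      ∀ n, ∀ 𝒱 ⊆ B n, closure (⋃₀ 𝒱) = ⋃ V ∈ 𝒱, closure V

/-- `X` is an `M₂`-space: it is regular and `T₁`, and there are families `B 0, B 1, …` of subsets
of `X` such that the union of every subfamily of every `B n` is closed, and for every point `x` of
an open set `U` some `V` in some `B n` satisfies `x ∈ interior V ⊆ V ⊆ U`. -/
def IsM2Space (X : Type u) [TopologicalSpace X] : Prop :=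
  T3Space X ∧
    ∃ B : ℕ → Set (Set X), (∀ n, ∀ 𝒱 ⊆ B n, IsClosed (⋃₀ 𝒱)) ∧
      ∀ (x : X) (U : Set X), IsOpen U → x ∈ U → ∃ n, ∃ V ∈ B n, x ∈ interior V ∧ V ⊆ U

/-- The dominating number `𝔡`: the least cardinality of a family `F` of functions `ℕ → ℕ` such
that every `h : ℕ → ℕ` satisfies `h k ≤ f k` for some `f ∈ F` and all but finitely many `k`. -/
noncomputable def dominatingNumber : Cardinal.{0} :=
  sInf {κ | ∃ F : Set (ℕ → ℕ), Cardinal.mk F = κ ∧
    ∀ h : ℕ → ℕ, ∃ f ∈ F, ∀ᶠ k in Filter.atTop, h k ≤ f k}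

/-- `Z` is the union of a countable family of closed discrete subsets of `X` (sets all of whose
subsets are closed in `X`) and a set `T` with fewer than `𝔡` points. -/
def IsSmall {X : Type u} [TopologicalSpace X] (Z : Set X) : Prop :=
  ∃ (D : ℕ → Set X) (T : Set X), (∀ n, ∀ F ⊆ D n, IsClosed F) ∧
    Cardinal.mk T < Cardinal.lift.{u} dominatingNumber ∧ Z = (⋃ n, D n) ∪ T

/-- Every point in the closure of a set `A` is in the closure of some `E ⊆ A` whose closure is
small. -/
def HasSmallClosures (X : Type u) [TopologicalSpace X] : Prop :=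
  ∀ (A : Set X) (p : X), p ∈ closure A → ∃ E ⊆ A, p ∈ closure E ∧ IsSmall (closure E)

/-- `X` is countably tight. -/
def CountablyTight (X : Type u) [TopologicalSpace X] : Prop :=
  ∀ (A : Set X) (p : X), p ∈ closure A → ∃ A₀ ⊆ A, A₀.Countable ∧ p ∈ closure A₀

/-- `X` has an `ω^ω`-base at `p`: a neighbourhood base `U φ`, `φ : ℕ → ℕ`, with `U ψ ⊆ U φ` for
`φ ≤ ψ`. -/
def HasOmegaOmegaBaseAt {X : Type u} [TopologicalSpace X] (p : X) : Prop :=
  ∃ U : (ℕ → ℕ) → Set X, (∀ φ, U φ ∈ 𝓝 p) ∧ (∀ V ∈ 𝓝 p, ∃ φ, U φ ⊆ V) ∧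
    ∀ φ ψ, φ ≤ ψ → U ψ ⊆ U φ

/-- Every space `Y` that is the image of a subspace of `X` under a closed continuous map is an
`M₁`-space. -/
def ClosedImagesAreM1 (X : Type u) [TopologicalSpace X] : Prop :=
  ∀ (S : Set X) (Y : Type v) [TopologicalSpace Y] (f : S → Y),
    Continuous f → IsClosedMap f → Function.Surjective f → IsM1Space Y

theorem isM2Space_of_isM1Space {X : Type u} [TopologicalSpace X] (h : IsM1Space X) :
    IsM2Space X := by
  obtain ⟨h3, h⟩ := h
  exact ⟨h3, H51.CI.hasM2_of_hasM1 h⟩

lemma exists_of_lt {F : Set (ℕ → ℕ)} (hF : Cardinal.mk F < dominatingNumber) :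
    ∃ h : ℕ → ℕ, ∀ f ∈ F, ¬ ∀ᶠ k in Filter.atTop, h k ≤ f k := by
  by_contra hcon
  push Not at hcon
  exact notMem_of_lt_csInf hF (OrderBot.bddBelow _) ⟨F, rfl, hcon⟩

/-- (1) Closed images of subspaces of `M₂`-spaces with small closures are `M₁`.
(2) The same for `M₂`-spaces with fewer than `𝔡` points.
(3) The same for countably tight `M₂`-spaces with an `ω^ω`-base at every point.
(4) The same for the function spaces `C(P, ℝ)` (compact-open topology), `P` Polish.
(5) Every `M₁`-space is an `M₂`-space (so (1)-(3) apply to `M₁`-spaces). -/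
theorem result :
    (∀ (X : Type u) [TopologicalSpace X], IsM2Space X → HasSmallClosures X →
      ClosedImagesAreM1.{u, v} X) ∧
    (∀ (X : Type u) [TopologicalSpace X], IsM2Space X →
      Cardinal.mk X < Cardinal.lift.{u} dominatingNumber → ClosedImagesAreM1.{u, v} X) ∧
    (∀ (X : Type u) [TopologicalSpace X], IsM2Space X → CountablyTight X →
      (∀ p : X, HasOmegaOmegaBaseAt p) → ClosedImagesAreM1.{u, v} X) ∧
    (∀ (P : Type u) [TopologicalSpace P] [PolishSpace P], ClosedImagesAreM1.{u, v} C(P, ℝ)) ∧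
    (∀ (X : Type u) [TopologicalSpace X], IsM1Space X → IsM2Space X) := by
  have h1 : ∀ (X : Type u) [TopologicalSpace X], IsM2Space X → HasSmallClosures X →
      ClosedImagesAreM1.{u, v} X := by
    intro X _ h2 hs S Y _ f hc hcl hsur
    obtain ⟨h3, h2⟩ := h2
    exact H51.CI.closedImage' h2 (fun A p hp => by
      obtain ⟨E, hE, hpE, D, T, hD, hT, hDE⟩ := hs A p hp
      exact ⟨E, hE, hpE, D, T, hD, H51.CI.sm_of_lt (fun F hF => exists_of_lt hF) hT, hDE⟩)
      S f hc hcl hsur
  have h2 : ∀ (X : Type u) [TopologicalSpace X], IsM2Space X → H51.CI.HasCD X →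
      ClosedImagesAreM1.{u, v} X := by
    intro X _ h2 hs S Y _ f hc hcl hsur
    obtain ⟨h3, h2⟩ := h2
    exact H51.CI.closedImage h2 hs S f hc hcl hsur
  refine ⟨h1, fun X _ h2 hX => ?_, fun X _ h3 ht hw => ?_, fun P _ _ => ?_,
    fun X _ h => isM2Space_of_isM1Space h⟩
  · refine h1 X h2 fun A p hp => ⟨A, Set.Subset.rfl, hp, fun _ => ∅, closure A, fun n F hF => ?_,
      (Cardinal.mk_set_le _).trans_lt hX, by simp⟩
    rw [Set.subset_empty_iff.1 hF]
    exact isClosed_empty
  · refine h2 X h3 ?_
    obtain ⟨h4, h3⟩ := h3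
    obtain ⟨D⟩ := H51.CI.exists_strat_of_hasM2 h3
    exact H51.CI.hasCD_of_hasCC (H51.CI.hasCC_of_hasWB D ht hw)
  · obtain ⟨h4, hD⟩ := H51.CI.hasCD_C P
    exact h2 C(P, ℝ) ⟨inferInstance, h4⟩ hD

end Pool.Agent.Results.MP_e4a2d8_gt.ClosedImages
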