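import Pool.Agent.H51.SU.Fin3

/-!
# Countable closed sums of M₁-spaces

Let `X` be an `M₂`-space (stratifiable space) which is the union of closed sets `X₀, X₁, …` such
that every difference `Xⱼ ∖ (X₀ ∪ … ∪ Xⱼ₋₁)` is an `M₁`-space. Then `X` is an `M₁`-space. For
example this holds if every `Xⱼ` is `M₁`, and if `X` consists of a closed `M₁`-subspace and an open
`M₁`-subspace (adjunction spaces).
-/

set_option autoImplicit false
open Topology

namespace Pool.Agent.Results.MP_e4a2d8_gt.CountableSum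

universe u v

/-- `Y` is an `M₁`-space: it is regular and `T₁` (`T₃`), and it has a base of open sets that is a
countable union of closure-preserving families. -/
def IsM1Space (Y : Type u) [TopologicalSpace Y] : Prop :=
  T3Space Y ∧
    ∃ B : ℕ → Set (Set Y), TopologicalSpace.IsTopologicalBasis (⋃ n, B n) ∧
      ∀ n, ∀ 𝒱 ⊆ B n, closure (⋃₀ 𝒱) = ⋃ V ∈ 𝒱, closure V

/-- `X` is an `M₂`-space: it is regular and `T₁`, and there are families `B 0, B 1, …` of subsets
of `X` such that the union of every subfamily of every `B n` is closed, and for every point `x` of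
an open set `U` some `V` in some `B n` satisfies `x ∈ interior V ⊆ V ⊆ U`. -/
def IsM2Space (X : Type u) [TopologicalSpace X] : Prop :=
  T3Space X ∧
    ∃ B : ℕ → Set (Set X), (∀ n, ∀ 𝒱 ⊆ B n, IsClosed (⋃₀ 𝒱)) ∧
      ∀ (x : X) (U : Set X), IsOpen U → x ∈ U → ∃ n, ∃ V ∈ B n, x ∈ interior V ∧ V ⊆ U

/-- (1) If an `M₂`-space `X` is the union of closed sets `Y 0, Y 1, …` such that every subspace
`Y j ∖ (Y 0 ∪ … ∪ Y (j - 1))` is `M₁`, then `X` is `M₁`.
(2) If an `M₂`-space `X` is the union of countably many closed `M₁`-subspaces, then `X` is `M₁`.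
(3) Let `X` be `M₁`, `f : X → Z` a closed continuous surjection and `Z₀` a closed `M₁`-subspace
of `Z` such that the image of every nonempty open subset of `X ∖ f⁻¹(Z₀)` has nonempty interior (for
example `f` injective on `X ∖ f⁻¹(Z₀)`); then `Z` is `M₁`. -/
theorem result :
    (∀ (X : Type u) [TopologicalSpace X], IsM2Space X → ∀ Y : ℕ → Set X,
      (∀ j, IsClosed (Y j)) → (∀ x, ∃ j, x ∈ Y j) →
      (∀ j, IsM1Space (Y j \ ⋃ i ∈ Finset.range j, Y i : Set X)) → IsM1Space X) ∧
    (∀ (X : Type u) [TopologicalSpace X], IsM2Space X → ∀ Y : ℕ → Set X,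
      (∀ j, IsClosed (Y j)) → (∀ x, ∃ j, x ∈ Y j) → (∀ j, IsM1Space (Y j)) → IsM1Space X) ∧
    (∀ (X : Type u) [TopologicalSpace X] (Z : Type v) [TopologicalSpace Z] (f : X → Z)
      (Z₀ : Set Z), IsM1Space X → Continuous f → IsClosedMap f → Function.Surjective f →
      IsClosed Z₀ → IsM1Space Z₀ →
      (∀ V : Set X, IsOpen V → V.Nonempty → Disjoint V (f ⁻¹' Z₀) →
        (interior (f '' V)).Nonempty) → IsM1Space Z) := by
  refine ⟨fun X _ h2 Y hcl hun hM => ?_, fun X _ h2 Y hcl hun hM => ?_,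
    fun X _ Z _ f Z₀ h hc hm hs hZ hZM hq => ?_⟩
  · obtain ⟨h3, h2⟩ := h2
    obtain ⟨D⟩ := H51.CI.exists_strat_of_hasM2 h2
    exact ⟨h3, H51.SU.hasM1_of_pieces D Y hcl hun fun j => (hM j).2⟩
  · obtain ⟨h3, h2⟩ := h2
    obtain ⟨D⟩ := H51.CI.exists_strat_of_hasM2 h2
    exact ⟨h3, H51.SU.hasM1_of_rIn D (H51.SU.rIn_univ_of_closed D Y hcl hun fun j =>
      H51.SU.rIn_diff (isClosed_biUnion_finset fun i _ => hcl i) (hM j).2)⟩
  · obtain ⟨h3, h⟩ := h
    exact H51.SU.image_over h f hc hm hs hZ hZM.2 hq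

end Pool.Agent.Results.MP_e4a2d8_gt.CountableSum
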