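import Pool.Agent.H51.SU.Fin3

/-!
# Local networks, outer bases and closed images of M₁-spaces

An `M₂`-space (stratifiable space) is an `M₁`-space if and only if every point `e` has a
closure-preserving family of regular closed sets which contain `e` (and need not be neighbourhoods
of `e`) and are arbitrarily small; if and only if every closed set has a closure-preserving base of
open neighbourhoods. Consequently the image of an `M₁`-space under a closed map such that images of
nonempty open sets have nonempty interior (for example an irreducible closed map) is `M₁`.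
-/

set_option autoImplicit false
open Topology

namespace Pool.Agent.Results.MP_e4a2d8_gt.LocalNetwork

universe u v

/-- `Y` is an `M₁`-space: it is regular and `T₁` (`T₃`), and it has a base of open sets that is a
countable union of closure-preserving families. -/
def IsM1Space (Y : Type u) [TopologicalSpace Y] : Prop :=
  T3Space Y ∧
    ∃ B : ℕ → Set (Set Y), TopologicalSpace.IsTopologicalBasis (⋃ n, B n) ∧
      ∀ n, ∀ 𝒱 ⊆ B n, closure (⋃₀ 𝒱) = ⋃ V ∈ 𝒱, closure V

/-- `X` is an `M₂`-space: it is regular and `T₁`, and there are families `B 0, B 1, …` of subsets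
of `X` such that the union of every subfamily of every `B n` is closed, and for every point `x` of
an open set `U` some `V` in some `B n` satisfies `x ∈ interior V ⊆ V ⊆ U`. -/
def IsM2Space (X : Type u) [TopologicalSpace X] : Prop :=
  T3Space X ∧
    ∃ B : ℕ → Set (Set X), (∀ n, ∀ 𝒱 ⊆ B n, IsClosed (⋃₀ 𝒱)) ∧
      ∀ (x : X) (U : Set X), IsOpen U → x ∈ U → ∃ n, ∃ V ∈ B n, x ∈ interior V ∧ V ⊆ U

/-- The set `A` has a closure-preserving base of open neighbourhoods. -/
def HasOuterBase {X : Type u} [TopologicalSpace X] (A : Set X) : Prop :=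
  ∃ 𝒱 : Set (Set X), (∀ V ∈ 𝒱, IsOpen V ∧ A ⊆ V) ∧
    (∀ U, IsOpen U → A ⊆ U → ∃ V ∈ 𝒱, V ⊆ U) ∧
    ∀ 𝒲 ⊆ 𝒱, closure (⋃₀ 𝒲) = ⋃ V ∈ 𝒲, closure V

/-- The point `e` has a closure-preserving local network of regular closed sets: a family `𝒩` of
regular closed sets containing `e`, all of whose subfamilies have closed unions, such that every
neighbourhood of `e` contains a member. -/
def HasLocalNetwork {X : Type u} [TopologicalSpace X] (e : X) : Prop :=
  ∃ 𝒩 : Set (Set X), (∀ P ∈ 𝒩, e ∈ P ∧ closure (interior P) = P) ∧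
    (∀ U, IsOpen U → e ∈ U → ∃ P ∈ 𝒩, P ⊆ U) ∧ ∀ 𝒬 ⊆ 𝒩, IsClosed (⋃₀ 𝒬)

/-- (1) For an `M₂`-space `X` the following are equivalent: `X` is `M₁`; every point has a
closure-preserving local network of regular closed sets; every point has a closure-preserving base
of open neighbourhoods; every closed set has a closure-preserving base of open neighbourhoods.
(2) If `X` is `M₁` and `f : X → Y` is a closed continuous surjection such that the image of every
nonempty open set has nonempty interior, then `Y` is `M₁`. -/
theorem result :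
    (∀ (X : Type u) [TopologicalSpace X], IsM2Space X →
      (IsM1Space X ↔ ∀ e : X, HasLocalNetwork e) ∧
      (IsM1Space X ↔ ∀ e : X, HasOuterBase {e}) ∧
      (IsM1Space X ↔ ∀ A : Set X, IsClosed A → HasOuterBase A)) ∧
    (∀ (X : Type u) [TopologicalSpace X] (Y : Type v) [TopologicalSpace Y] (f : X → Y),
      IsM1Space X → Continuous f → IsClosedMap f → Function.Surjective f →
      (∀ V : Set X, IsOpen V → V.Nonempty → (interior (f '' V)).Nonempty) → IsM1Space Y) := by
  refine ⟨fun X _ h2 => ?_, fun X _ Y _ f h hc hcl hs hq => ?_⟩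
  · obtain ⟨h3, h2⟩ := h2
    have a1 : IsM1Space X → ∀ A : Set X, IsClosed A → HasOuterBase A := fun h A hA =>
      H51.SU.outerBase_of_hasR (H51.SU.hasR_of_hasM1 h.2 hA)
    have a2 : (∀ A : Set X, IsClosed A → HasOuterBase A) → ∀ e : X, HasOuterBase {e} :=
      fun h e => h _ isClosed_singleton
    have a3 : (∀ e : X, HasOuterBase {e}) → ∀ e : X, HasLocalNetwork e := fun h e =>
      H51.SU.localNetwork_of_outerBase (h e)
    have a4 : (∀ e : X, HasLocalNetwork e) → IsM1Space X := fun h => by
      obtain ⟨D⟩ := H51.CI.exists_strat_of_hasM2 h2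
      exact ⟨h3, H51.SU.hasM1_of_rIn D
        (H51.SU.rIn_of_as D fun e => H51.SU.as_of_localNetwork (h e))⟩
    exact ⟨⟨fun h => a3 (a2 (a1 h)), a4⟩, ⟨fun h => a2 (a1 h), fun h => a4 (a3 h)⟩,
      ⟨a1, fun h => a4 (a3 (a2 h))⟩⟩
  · obtain ⟨h3, h⟩ := h
    exact H51.SU.image_quasiOpen h f hc hcl hs hq

end Pool.Agent.Results.MP_e4a2d8_gt.LocalNetwork
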