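import Pool.Agent.H51.SU.Fin3

/-!
# Nowhere dense subspaces and the M₁ property

Every `M₂`-space (stratifiable space) which is not `M₁` contains an infinite decreasing sequence of
nonempty closed subspaces, each nowhere dense in the previous one, none of which has a nonempty
relatively open `M₁`-subspace. In particular an `M₂`-space is `M₁` if all its closed nowhere dense
subspaces are `M₁`, and also if every nonempty closed subspace has a nonempty relatively open
`M₁`-subspace.
-/

set_option autoImplicit false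
open Topology

namespace Pool.Agent.Results.MP_e4a2d8_gt.NowhereDense

universe u

/-- `Y` is an `M₁`-space: it is regular and `T₁` (`T₃`), and it has a base of open sets that is a
countable union of closure-preserving families. -/
def IsM1Space (Y : Type u) [TopologicalSpace Y] : Prop :=
  T3Space Y ∧
    ∃ B : ℕ → Set (Set Y), TopologicalSpace.IsTopologicalBasis (⋃ n, B n) ∧
      ∀ n, ∀ 𝒱 ⊆ B n, closure (⋃₀ 𝒱) = ⋃ V ∈ 𝒱, closure V

/-- `X` is an `M₂`-space: it is regular and `T₁`, and there are families `B 0, B 1, …` of subsets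
of `X` such that the union of every subfamily of every `B n` is closed, and for every point `x` of
an open set `U` some `V` in some `B n` satisfies `x ∈ interior V ⊆ V ⊆ U`. -/
def IsM2Space (X : Type u) [TopologicalSpace X] : Prop :=
  T3Space X ∧
    ∃ B : ℕ → Set (Set X), (∀ n, ∀ 𝒱 ⊆ B n, IsClosed (⋃₀ 𝒱)) ∧
      ∀ (x : X) (U : Set X), IsOpen U → x ∈ U → ∃ n, ∃ V ∈ B n, x ∈ interior V ∧ V ⊆ U

/-- The closed nonempty set `Y` is nowhere locally `M₁`: no nonempty relatively open subspace of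
`Y` is `M₁`. -/
def NowhereLocallyM1 {X : Type u} [TopologicalSpace X] (Y : Set X) : Prop :=
  IsClosed Y ∧ Y.Nonempty ∧
    ∀ O : Set X, IsOpen O → (O ∩ Y).Nonempty → ¬ IsM1Space (O ∩ Y : Set X)

/-- (1) An `M₂`-space that is not `M₁` contains closed sets `Y 0 ⊇ Y 1 ⊇ …`, all nowhere locally
`M₁`, such that every `Y (n + 1)` is nowhere dense in `Y n`.
(2) An `M₂`-space all of whose closed subspaces with empty interior are `M₁` is `M₁`.
(3) An `M₂`-space is `M₁` if every nonempty closed subspace has a nonempty relatively open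
`M₁`-subspace. -/
theorem result :
    (∀ (X : Type u) [TopologicalSpace X], IsM2Space X → ¬ IsM1Space X →
      ∃ Y : ℕ → Set X, ∀ n, NowhereLocallyM1 (Y n) ∧ Y (n + 1) ⊆ Y n ∧
        ∀ O : Set X, IsOpen O → (O ∩ Y n).Nonempty → (O ∩ (Y n \ Y (n + 1))).Nonempty) ∧
    (∀ (X : Type u) [TopologicalSpace X], IsM2Space X →
      (∀ F : Set X, IsClosed F → interior F = ∅ → IsM1Space F) → IsM1Space X) ∧
    (∀ (X : Type u) [TopologicalSpace X], IsM2Space X →
      (∀ F : Set X, IsClosed F → F.Nonempty →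
        ∃ O : Set X, IsOpen O ∧ (O ∩ F).Nonempty ∧ IsM1Space (O ∩ F : Set X)) →
      IsM1Space X) := by
  refine ⟨fun X _ h2 hn => ?_, fun X _ h2 h => ?_, fun X _ h2 h => ?_⟩
  · obtain ⟨h3, h2⟩ := h2
    obtain ⟨Y, hY⟩ := H51.SU.exists_chain h2 fun h => hn ⟨h3, h⟩
    exact ⟨Y, fun n => ⟨⟨(hY n).1.1, (hY n).1.2.1, fun O hO hne hM =>
      (hY n).1.2.2 O hO hne hM.2⟩, (hY n).2⟩⟩
  · obtain ⟨h3, h2⟩ := h2
    obtain ⟨D⟩ := H51.CI.exists_strat_of_hasM2 h2
    exact ⟨h3, H51.SU.hasM1_of_nowhereDense D fun F hF hi => (h F hF hi).2⟩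
  · obtain ⟨h3, h2⟩ := h2
    refine ⟨h3, H51.SU.hasM1_of_scattered h2 fun F hF hne => ?_⟩
    obtain ⟨O, hO, hne', hM⟩ := h F hF hne
    exact ⟨O, hO, hne', hM.2⟩

end Pool.Agent.Results.MP_e4a2d8_gt.NowhereDense
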